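import Pool.Agent.Helper52.CP.Numeric
import Pool.Agent.Helper52.CP.Volume2

/-!
# Maximal central sections of the cross-polytope through a facet barycenter

Let `V a` be the `(n-1)`-dimensional Lebesgue measure of the section of the cross-polytope by the
hyperplane orthogonal to `a`. Among all unit vectors `a` with coordinate sum zero, `V` is largest
at `u = (e_1 - e_2) / √2` when `2 ≤ n ≤ 5` and at `w_n = (1, ..., 1, 1 - n) / √(n (n - 1))` when
`6 ≤ n`.

Idea of the proof. `V a` is a constant times the integral of `∏ (1 + a_j² s²)⁻¹` (proved here by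
Fourier inversion). For three coordinates with elementary symmetric functions `e₁, e₂, e₃` one has
`∏ (1 + x_j² s²) = (1 - e₂ s²)² + s² (e₁ - e₃ s²)²`. Moving three coordinates of a maximiser along
the curve `e₁, e₂` constant shows that, up to sign and order, a maximiser is of the form
`(b, -y, -z, ..., -z)` with `b = y + (n - 2) z` and `y ≥ z ≥ 0`. On this one-parameter family the
derivative of the integral is a positive factor times an integral with the single crossing
property, so the maximum is at one of the two ends, which are `u` and `w_n`. Comparing the two ends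
is a computation for `n = 5` and `n = 6`, and follows for the other `n` by adding zeros.
-/

namespace Pool.Agent.Results.MP_84210a_gt.MaxSections

open MeasureTheory

/-- The cross-polytope: the closed unit ball of the `ℓ¹` norm. -/
def crossPolytope (n : ℕ) : Set (EuclideanSpace ℝ (Fin n)) := {x | ∑ i, |x i| ≤ 1}

/-- The hyperplane of all `x` with `⟨a, x⟩ = 0`. -/
noncomputable def H {n : ℕ} (a : EuclideanSpace ℝ (Fin n)) :
    Submodule ℝ (EuclideanSpace ℝ (Fin n)) := (Submodule.span ℝ {a})ᗮ

/-- The section of the cross-polytope by the hyperplane `H a`, as a subset of `H a`. -/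
def sec {n : ℕ} (a : EuclideanSpace ℝ (Fin n)) : Set (H a) := {x | x.1 ∈ crossPolytope n}

/-- `V a`: the `(n-1)`-dimensional Lebesgue measure (the canonical volume of the hyperplane
`H a` as a Euclidean space) of the section of the cross-polytope by that hyperplane. -/
noncomputable def V {n : ℕ} (a : EuclideanSpace ℝ (Fin n)) : ENNReal := volume (sec a)

/-- `u = (e_1 - e_2) / √2`. -/
noncomputable def u (n : ℕ) : EuclideanSpace ℝ (Fin n) := WithLp.toLp 2 fun i =>
  if (i : ℕ) = 0 then 1 / Real.sqrt 2 else if (i : ℕ) = 1 then -(1 / Real.sqrt 2) else 0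

/-- `w_n = (1, ..., 1, 1 - n) / √(n (n - 1))`. -/
noncomputable def w (n : ℕ) : EuclideanSpace ℝ (Fin n) := WithLp.toLp 2 fun i =>
  if (i : ℕ) + 1 = n then (1 - (n : ℝ)) / Real.sqrt (n * (n - 1 : ℝ))
  else 1 / Real.sqrt (n * (n - 1 : ℝ))

/-- The conjecture holds for every `n ≥ 2`. -/
theorem result (n : ℕ) (hn : 2 ≤ n) (a : EuclideanSpace ℝ (Fin n)) (ha : ‖a‖ = 1)
    (hs : ∑ i, a i = 0) : (n ≤ 5 → V a ≤ V (u n)) ∧ (6 ≤ n → V a ≤ V (w n)) := by
  have hV : ∀ x : EuclideanSpace ℝ (Fin n), V x = Pool.Agent.Helper52.CP.sectionVol x :=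
    fun x => rfl
  have hcoe : ∀ x : EuclideanSpace ℝ (Fin n), (fun i => x i) ∈ Pool.Agent.Helper52.CP.MM (Fin n) →
      ‖x‖ = 1 := by
    intro x hx
    rw [EuclideanSpace.norm_eq]
    simp only [Real.norm_eq_abs, sq_abs]
    rw [hx.2, Real.sqrt_one]
  have haM : (fun i => a i) ∈ Pool.Agent.Helper52.CP.MM (Fin n) :=
    ⟨hs, Pool.Agent.Helper52.CP.sum_sq_of_norm ha⟩
  obtain ⟨m, rfl⟩ : ∃ m, n = m + 2 := ⟨n - 2, by omega⟩
  have hu : (fun i => (u (m + 2)) i) = Pool.Agent.Helper52.CP.uvec (m + 2) := by
    funext i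
    simp only [u, Pool.Agent.Helper52.CP.uvec, one_div]
  have hw : (fun i => (w (m + 2)) i) = Pool.Agent.Helper52.CP.wvec (m + 2) := by
    funext i
    simp only [w, Pool.Agent.Helper52.CP.wvec]
    have hm : (0 : ℝ) ≤ m := by positivity
    have h1 : (0 : ℝ) < ((m + 2 : ℕ) : ℝ) := by positivity
    have h2 : (0 : ℝ) < ((m + 2 : ℕ) : ℝ) - 1 := by push_cast; linarith
    split_ifs
    · rw [Real.sqrt_mul h1.le, Real.sqrt_div h2.le]
      have h3 := Real.sqrt_pos.2 h1
      have h4 := Real.sqrt_pos.2 h2
      have h5 := Real.mul_self_sqrt h2.le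
      rw [div_eq_iff (by positivity)]
      field_simp
      nlinarith
    · rw [one_div]
  have hum := (Pool.Agent.Helper52.CP.uvec_family m).1
  have hwm := (Pool.Agent.Helper52.CP.wvec_family m).1
  have key := Pool.Agent.Helper52.CP.FF_main hn haM
  have hmono : ∀ x : EuclideanSpace ℝ (Fin (m + 2)), ‖x‖ = 1 →
      Pool.Agent.Helper52.CP.FF (fun i => a i) ≤ Pool.Agent.Helper52.CP.FF (fun i => x i) →
      V a ≤ V x := by
    intro x hx h
    rw [hV, hV, Pool.Agent.Helper52.CP.sectionVol_eq hn ha,
      Pool.Agent.Helper52.CP.sectionVol_eq hn hx]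
    apply ENNReal.ofReal_le_ofReal
    apply mul_le_mul_of_nonneg_left h
    positivity
  constructor
  · intro h5
    apply hmono _ (hcoe _ (by rw [hu]; exact hum))
    rw [hu]
    exact key.1 h5
  · intro h6
    apply hmono _ (hcoe _ (by rw [hw]; exact hwm))
    rw [hw]
    exact key.2 h6

end Pool.Agent.Results.MP_84210a_gt.MaxSections
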